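import Pool.Agent.W743.HP.Stm

/-!
Project HP (helper743), problem MP_8f331d_an, part HP-LARGE: positivity of `G N α x` for large `N`.
-/

set_option autoImplicit false

open Set Filter Topology Finset

namespace Pool.Agent.W335.HPN.Large

open Pool.Agent.W743.HP

/-- The abstract bound. -/
theorem bound (a : ℕ → ℝ) (x k : ℝ) (hx : 0 < x) (ha : ∀ j, 0 ≤ a j) (h0 : a 0 = 1)
    (hk : 0 ≤ k) (h : ∀ j, a (j + 1) ≤ k * ∑ i ∈ range (j + 1), a i * x ^ (j + 1 - i)) (J : ℕ)
    (hx1 : x < 1) :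
    (1 - x - k * x) * ∑ j ∈ range J, a (j + 1) ≤ k * x := by
  set B : ℕ → ℝ := fun j => ∑ i ∈ range (j + 1), a i * x ^ (j + 1 - i) with hB
  have hB0 : B 0 = x := by simp [hB, h0]
  have hBs : ∀ j, B (j + 1) = x * (B j + a (j + 1)) := by
    intro j
    simp only [hB]
    rw [Finset.sum_range_succ _ (j + 1), mul_add, Finset.mul_sum]
    congr 1
    · refine Finset.sum_congr rfl fun i hi => ?_
      have : i < j + 1 := Finset.mem_range.1 hi
      have e : j + 1 + 1 - i = (j + 1 - i) + 1 := by omega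
      rw [e, pow_succ]; ring
    · have e : j + 1 + 1 - (j + 1) = 1 := by omega
      rw [e]; ring
  have hBn : ∀ j, 0 ≤ B j := fun j =>
    Finset.sum_nonneg fun i _ => mul_nonneg (ha i) (pow_nonneg hx.le _)
  set S : ℝ := ∑ j ∈ range J, a (j + 1) with hS
  set T : ℝ := ∑ j ∈ range J, B j with hT
  have h1 : S ≤ k * T := by
    rw [hS, hT, Finset.mul_sum]
    exact Finset.sum_le_sum fun j _ => h j
  have h2 : T ≤ x + x * (T + S) := by
    have e1 : ∑ j ∈ range (J + 1), B j = T + B J := Finset.sum_range_succ _ _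
    have e2 : ∑ j ∈ range (J + 1), B j = (∑ j ∈ range J, B (j + 1)) + B 0 :=
      Finset.sum_range_succ' _ _
    have e3 : ∑ j ∈ range J, B (j + 1) = x * (T + S) := by
      rw [hT, hS, ← Finset.sum_add_distrib, Finset.mul_sum]
      exact Finset.sum_congr rfl fun j _ => hBs j
    have := hBn J
    rw [hB0, e3] at e2
    linarith
  have h3 : (1 - x) * T ≤ x * (1 + S) := by linarith
  have h4 : (1 - x) * S ≤ k * (x * (1 + S)) := by
    calc (1 - x) * S ≤ (1 - x) * (k * T) := mul_le_mul_of_nonneg_left h1 (by linarith)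
      _ = k * ((1 - x) * T) := by ring
      _ ≤ _ := mul_le_mul_of_nonneg_left h3 hk
  linarith

theorem large : S_BD → S_REG → S_LARGE := by
  intro hbd hreg α hα x hx N hN
  have hα0 : 0 ≤ α := le_trans (by norm_num [aL]) hα.1
  have hα1 : α ≤ 121242 / 5000 := hα.2
  have hx0 : (0 : ℝ) < x := lt_of_lt_of_le (by norm_num [xl]) hx.1
  have hx1 : x ≤ 188 / 500 := hx.2
  have hxa : |x| < 1 := by rw [abs_of_pos hx0]; linarith
  have hNr : (32 : ℝ) ≤ N := by exact_mod_cast hN
  have hsum := (hreg.1 N α x hα0 hxa).1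
  have hA : α ≤ ((25 : ℕ) : ℝ) := by push_cast; linarith
  set k : ℝ := α / (N + 1) with hk
  have hN1 : (0 : ℝ) < N + 1 := by linarith
  have hk0 : 0 ≤ k := by positivity
  have hk1 : k ≤ 121242 / 5000 / 33 := by
    rw [hk]
    calc α / (N + 1) ≤ 121242 / 5000 / (N + 1) := by gcongr
      _ ≤ 121242 / 5000 / 33 := by
        apply div_le_div_of_nonneg_left <;> linarith
  set a : ℕ → ℝ := fun j => |c N α j * x ^ j| with ha
  have ha0 : ∀ j, 0 ≤ a j := fun j => abs_nonneg _
  have hc0 : c N α 0 = 1 := by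
    simp [c, cf]
  have haz : a 0 = 1 := by simp [ha, hc0]
  have hrec : ∀ j, a (j + 1) ≤ k * ∑ i ∈ range (j + 1), a i * x ^ (j + 1 - i) := by
    intro j
    have h := (hbd.1 N α 25 hα0 hA j).2
    have hj : (0 : ℝ) < (j : ℝ) + 1 := by positivity
    have hjN : (0 : ℝ) < (j : ℝ) + 1 + N := by positivity
    have h1 : ((j : ℝ) + 1) * (j + 1 + N) * |c N α (j + 1)| ≤
        α * ∑ i ∈ range (j + 1), ((j : ℝ) + 1) * |c N α i| := by
      have e : ((j : ℝ) + 1) * (j + 1 + N) * |c N α (j + 1)| =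
          |((j : ℝ) + 1) * (j + 1 + N) * c N α (j + 1)| := by
        rw [abs_mul, abs_of_pos (mul_pos hj hjN)]
      rw [e, h, abs_mul, abs_neg, abs_of_nonneg hα0]
      refine mul_le_mul_of_nonneg_left ?_ hα0
      refine (Finset.abs_sum_le_sum_abs _ _).trans (Finset.sum_le_sum fun i hi => ?_)
      have hi' : (i : ℝ) < (j : ℝ) + 1 := by exact_mod_cast Finset.mem_range.1 hi
      have hi0 : (0 : ℝ) ≤ i := Nat.cast_nonneg i
      rw [abs_mul, abs_of_pos (by linarith : (0 : ℝ) < (j : ℝ) + 1 - i)]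
      exact mul_le_mul_of_nonneg_right (by linarith) (abs_nonneg _)
    rw [← Finset.mul_sum] at h1
    have h2 : ((j : ℝ) + 1 + N) * |c N α (j + 1)| ≤ α * ∑ i ∈ range (j + 1), |c N α i| := by
      have : ((j : ℝ) + 1) * (((j : ℝ) + 1 + N) * |c N α (j + 1)|) ≤
          ((j : ℝ) + 1) * (α * ∑ i ∈ range (j + 1), |c N α i|) := by
        calc _ = ((j : ℝ) + 1) * (j + 1 + N) * |c N α (j + 1)| := by ring
          _ ≤ _ := h1
          _ = _ := by ring
      exact le_of_mul_le_mul_left this hj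
    have h3 : ((N : ℝ) + 1) * |c N α (j + 1)| ≤ α * ∑ i ∈ range (j + 1), |c N α i| := by
      refine le_trans (mul_le_mul_of_nonneg_right ?_ (abs_nonneg _)) h2
      have : (0 : ℝ) ≤ j := Nat.cast_nonneg j
      linarith
    have h4 : |c N α (j + 1)| ≤ k * ∑ i ∈ range (j + 1), |c N α i| := by
      rw [hk, div_mul_eq_mul_div, le_div_iff₀ hN1]
      linarith
    have h5 : a (j + 1) = |c N α (j + 1)| * x ^ (j + 1) := by
      simp only [ha]
      rw [abs_mul, abs_of_pos (pow_pos hx0 _)]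
    rw [h5]
    refine le_trans (mul_le_mul_of_nonneg_right h4 (pow_nonneg hx0.le _)) (le_of_eq ?_)
    rw [mul_assoc, Finset.sum_mul]
    congr 1
    refine Finset.sum_congr rfl fun i hi => ?_
    have : i < j + 1 := Finset.mem_range.1 hi
    simp only [ha]
    rw [abs_mul, abs_of_pos (pow_pos hx0 _), mul_assoc, ← pow_add]
    congr 2
    omega
  have hb := bound a x k hx0 ha0 haz hk0 hrec
  have hS : ∀ J, ∑ j ∈ range J, a (j + 1) ≤ 9 / 10 := by
    intro J
    have h := hb J (by linarith)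
    have hkx : k * x ≤ 121242 / 5000 / 33 * (188 / 500) :=
      mul_le_mul hk1 hx1 hx0.le (by norm_num)
    have hS0 : 0 ≤ ∑ j ∈ range J, a (j + 1) := Finset.sum_nonneg fun j _ => ha0 _
    by_contra hcon
    push Not at hcon
    have hc : (0.34 : ℝ) ≤ 1 - x - k * x := by
      norm_num at hkx ⊢
      linarith
    have : 0.34 * (9 / 10 : ℝ) < (1 - x - k * x) * ∑ j ∈ range J, a (j + 1) := by
      calc 0.34 * (9 / 10 : ℝ) < 0.34 * ∑ j ∈ range J, a (j + 1) := by
            apply mul_lt_mul_of_pos_left hcon; norm_num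
        _ ≤ _ := mul_le_mul_of_nonneg_right hc hS0
    norm_num at this hkx
    linarith
  have hs1 : Summable fun j => a (j + 1) := (summable_nat_add_iff 1).2 hsum
  have hts : ∑' j, a (j + 1) ≤ 9 / 10 := by
    refine le_of_tendsto' hs1.hasSum.tendsto_sum_nat fun J => hS J
  have hsc : Summable fun j => c N α j * x ^ j := hsum.of_abs
  have hG : G N α x = 1 + ∑' j, c N α (j + 1) * x ^ (j + 1) := by
    simp only [G]
    rw [hsc.tsum_eq_zero_add]
    simp [hc0]
  have hlow : |∑' j, c N α (j + 1) * x ^ (j + 1)| ≤ ∑' j, a (j + 1) := by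
    have := norm_tsum_le_tsum_norm (f := fun j => c N α (j + 1) * x ^ (j + 1)) hs1
    exact this
  have := neg_abs_le (∑' j, c N α (j + 1) * x ^ (j + 1))
  rw [hG]
  linarith

end Pool.Agent.W335.HPN.Large
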